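import Pool.Agent.H38.O1.N3

set_option autoImplicit false

/-!
Commutators in an automorphic loop, and `eta = T_(th b) T_b⁻¹` (helper77's note 6875, (A)-(D)).
-/

namespace ALoop

open Equiv

variable {Q : Type*} {G : Subgroup (Perm Q)} {L : Q → Perm Q} {J : Perm Q} {e : Q}

/-- the commutator `x \ (T_u x)` -/
def sc (L : Q → Perm Q) (J : Perm Q) (u x : Q) : Q := (L x)⁻¹ (Tx L J u x)

/-- the reflection at `q` -/
def Dx (L : Q → Perm Q) (J : Perm Q) (q : Q) : Perm Q := L q * J * (L q)⁻¹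

namespace AL0

/-- `g T_x g⁻¹ = T_(g x)` -/
theorem Tx_conj (h : AL0 G L J e) {g : Perm Q} (hg : g ∈ G) (hge : g e = e) (x : Q) :
    g * Tx L J x * g⁻¹ = Tx L J (g x) := by
  have h1 := h.equi g hg hge x
  have h2 : g * Rt L J x * g⁻¹ = Rt L J (g x) := by
    have h3 := h.comJ g hg hge
    have h4 := h.equi g hg hge (J x)
    have h5 : g (J x) = J (g x) := by
      have := congrArg (fun p : Perm Q => p x) h3
      simpa using this
    unfold Rt
    have h6 : J * g⁻¹ = g⁻¹ * J := by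
      rw [eq_inv_mul_iff_mul_eq, ← mul_assoc, h3]; group
    calc g * (J * L (J x) * J) * g⁻¹ = (g * J) * L (J x) * (J * g⁻¹) := by group
      _ = J * (g * L (J x) * g⁻¹) * J := by rw [h3, h6]; group
      _ = _ := by rw [h4, h5]
  unfold Tx
  calc g * (L x * (Rt L J x)⁻¹) * g⁻¹ = (g * L x * g⁻¹) * (g * Rt L J x * g⁻¹)⁻¹ := by group
    _ = _ := by rw [h1, h2]

/-- `g s(u, x) = s(g u, g x)` -/
theorem sc_conj (h : AL0 G L J e) {g : Perm Q} (hg : g ∈ G) (hge : g e = e) (u x : Q) :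
    g (sc L J u x) = sc L J (g u) (g x) := by
  unfold sc
  rw [← h.Tx_conj hg hge u, eq_comm, Perm.inv_eq_iff_eq, ← h.aut hg hge, apply_inv']
  simp only [Perm.mul_apply]
  rw [inv_apply']

theorem sc_eq (_h : AL0 G L J e) (u x : Q) : L x (sc L J u x) = Tx L J u x := by
  unfold sc; rw [apply_inv']

theorem Le1'' (h : AL0 G L J e) : L e = 1 := by
  ext y
  have h2 := h.Rt_app y e
  rw [h.Rt_e] at h2
  rw [← h2, Perm.one_apply]

/-- `L_x⁻¹ T_u L_x = L_s T_u`, `s = s(u, x)` -/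
theorem LTL (h : AL0 G L J e) (u x : Q) :
    (L x)⁻¹ * Tx L J u * L x = L (sc L J u x) * Tx L J u := by
  have h1 : L x * L (sc L J u x) = L (L x (sc L J u x)) := h.N3 u x
  rw [h.sc_eq, ← h.equi _ (h.Tx_mem u) (h.Tx_e u) x] at h1
  calc (L x)⁻¹ * Tx L J u * L x = (L x)⁻¹ * (Tx L J u * L x * (Tx L J u)⁻¹) * Tx L J u := by group
    _ = _ := by rw [← h1]; group

/-- the commutator lies in its own set -/
theorem Nsp_self (h : AL0 G L J e) (u x : Q) {s : Q} (hu : Nsp L s u) (hx : Nsp L s x) :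
    Nsp L s (sc L J u x) := by
  -- `R_u⁻¹ x =: z`, `z u = x`
  have h1 : L ((Rt L J u)⁻¹ x) u = x := by rw [← h.Rt_app, apply_inv']
  have h2 : Nsp L s ((Rt L J u)⁻¹ x) := by
    rw [h.Nsp_iff] at hu hx ⊢
    intro w
    obtain ⟨h3, h4⟩ := h.Nsp_r s w
    have h5 := hx w
    rw [← h1, h.aut h3 h4, hu] at h5
    have h6 : ((Rt L J (L s w))⁻¹ * Rt L J w * Rt L J s) ((Rt L J u)⁻¹ x) =
        (Rt L J u)⁻¹ x := by
      apply (Rt L J u).injective
      rw [h.Rt_app, h.Rt_app]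
      exact h5
    exact h6
  have h3 : Nsp L s (Tx L J u x) := by
    have h4 : Tx L J u x = L u ((Rt L J u)⁻¹ x) := by unfold Tx; rw [Perm.mul_apply]
    rw [h4]
    exact h.Nsp_mul hu h2
  rw [← h.sc_eq] at h3
  exact h.Nsp_ldiv hx h3

theorem sc_inv (h : AL0 G L J e) (u x : Q) : J (sc L J u x) = sc L J (J u) (Tx L J u x) := by
  have h1 : L x * L (sc L J u x) = L (L x (sc L J u x)) := h.N3 u x
  rw [h.sc_eq] at h1
  unfold sc
  rw [h.Tx_inv, inv_apply', ← h1]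
  rw [mul_inv_rev, Perm.mul_apply]
  have h2 : (L x)⁻¹ x = e := by rw [Perm.inv_eq_iff_eq, h.Le]
  rw [h2]
  exact (h.L_inv_e _).symm

/-- `L_s⁻¹ = L_(s⁻¹)` for a commutator -/
theorem L_sc_inv (h : AL0 G L J e) (u x : Q) : L (J (sc L J u x)) = (L (sc L J u x))⁻¹ := by
  have h1 := h.Nsp_inv (h.Nsp_self u x (h.N4 u x) (h.N3 u x))
  have h2 : L (J (sc L J u x)) * L (sc L J u x) = L (L (J (sc L J u x)) (sc L J u x)) := h1
  rw [h.JL, h.Le1''] at h2
  exact eq_inv_of_mul_eq_one_left h2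

theorem R_sc_inv (h : AL0 G L J e) (u x : Q) :
    J * L (sc L J u x) * J = (Rt L J (sc L J u x))⁻¹ := by
  have h1 := h.L_sc_inv u x
  unfold Rt
  rw [h1]
  rw [mul_inv_rev, mul_inv_rev, inv_inv, h.Jinv]; group

/-- mirror image of `Nsp` -/
theorem Nsp_mirror (h : AL0 G L J e) {s v : Q} (hv : Nsp L (J s) (J v)) :
    Rt L J v * Rt L J s = Rt L J (L s v) := by
  have h1 : L (J v) * L (J s) = L (L (J v) (J s)) := hv
  rw [← h.aaip] at h1
  unfold Rt
  calc J * L (J v) * J * (J * L (J s) * J) = J * L (J v) * (J * J) * L (J s) * J := by group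
    _ = J * (L (J v) * L (J s)) * J := by rw [h.JJ1]; group
    _ = _ := by rw [h1]

/-- `N_(s⁻¹)` contains `u` and `x` -/
theorem Nsp_J (h : AL0 G L J e) (u x : Q) :
    Nsp L (J (sc L J u x)) u ∧ Nsp L (J (sc L J u x)) x := by
  rw [h.sc_inv u x]
  have h1 := h.Nsp_inv (h.N4 (J u) (Tx L J u x))
  rw [h.JJ] at h1
  have h2 := h.N3 (J u) (Tx L J u x)
  refine ⟨h1, ?_⟩
  -- `T_u x = u (x / u)`
  have h4 : Tx L J u x = L u ((Rt L J u)⁻¹ x) := by unfold Tx; rw [Perm.mul_apply]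
  obtain ⟨s, hs⟩ : ∃ s, s = sc L J (J u) (Tx L J u x) := ⟨_, rfl⟩
  change Nsp L (sc L J (J u) (Tx L J u x)) x
  change Nsp L (sc L J (J u) (Tx L J u x)) (Tx L J u x) at h2
  change Nsp L (sc L J (J u) (Tx L J u x)) u at h1
  rw [← hs] at h1 h2 ⊢
  rw [h4] at h2
  have h5 := h.Nsp_ldiv h1 h2
  have h6 := h.Nsp_mul h5 h1
  rwa [← h.Rt_app, apply_inv'] at h6

/-- mirror of N4 : `R_(s w) = R_w R_s` for `w = u, x` -/
theorem N4m (h : AL0 G L J e) (u x : Q) :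
    Rt L J u * Rt L J (sc L J u x) = Rt L J (L (sc L J u x) u) :=
  h.Nsp_mirror (h.Nsp_inv (h.Nsp_J u x).1)

/-- (A) `th(a, b)` fixes `s(b, x)` -/
theorem Th_sc (h : AL0 G L J e) (a b x : Q) : Th L J a b (sc L J b x) = sc L J b x := by
  have h1 := congrArg (fun p : Perm Q => p a) (h.N4m b x)
  simp only [Perm.mul_apply] at h1
  rw [h.Rt_app, h.Rt_app, h.Rt_app] at h1
  -- `(a s) b = a (s b)`
  unfold Th
  simp only [Perm.mul_apply]
  rw [Perm.inv_eq_iff_eq, Perm.inv_eq_iff_eq, h.Rt_app, h.Rt_app, ← h1]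

/-- lemma (D) -/
theorem comm_LR (h : AL0 G L J e) {s v : Q} (h1 : Nsp L s v) (h2 : Nsp L v s) :
    L v * Rt L J s = Rt L J s * L v := by
  have h3 : L v * L s = L (L v s) := h1
  have h4 : L s * L v = L (L s v) := h2
  have h5 : Tx L J s (L v s) = L s v := by
    unfold Tx
    rw [Perm.mul_apply, ← h.Rt_app s v, inv_apply']
  have h6 := h.equi _ (h.Tx_mem s) (h.Tx_e s) (L v s)
  rw [h5, ← h3, ← h4] at h6
  have h7 := h.Tx_L s
  have h9 : Tx L J s * (L s)⁻¹ * (Tx L J s)⁻¹ = (L s)⁻¹ := by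
    calc Tx L J s * (L s)⁻¹ * (Tx L J s)⁻¹ = (Tx L J s * L s * (Tx L J s)⁻¹)⁻¹ := by group
      _ = (L s * Tx L J s * (Tx L J s)⁻¹)⁻¹ := by rw [h7]
      _ = _ := by group
  have h8 : Tx L J s * L v * (Tx L J s)⁻¹ = L s * L v * (L s)⁻¹ := by
    calc Tx L J s * L v * (Tx L J s)⁻¹ =
          (Tx L J s * (L v * L s) * (Tx L J s)⁻¹) * (Tx L J s * (L s)⁻¹ * (Tx L J s)⁻¹) := by group
      _ = _ := by rw [h6, h9]
  unfold Tx at h8
  have h11 : L v * Rt L J s = Rt L J s * L v := by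
    have e1 : (Rt L J s)⁻¹ * L v * Rt L J s = L v := by
      have h12 := congrArg (fun g => (L s)⁻¹ * g * L s) h8
      calc (Rt L J s)⁻¹ * L v * Rt L J s =
          (L s)⁻¹ * (L s * (Rt L J s)⁻¹ * L v * (L s * (Rt L J s)⁻¹)⁻¹) * L s := by group
        _ = (L s)⁻¹ * (L s * L v * (L s)⁻¹) * L s := h12
        _ = L v := by group
    calc L v * Rt L J s = Rt L J s * ((Rt L J s)⁻¹ * L v * Rt L J s) := by group
      _ = _ := by rw [e1]
  exact h11

/-- `D_t g D_t` -/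
theorem DgD (_h : AL0 G L J e) {g A : Perm Q} (t : Q) (h1 : (L t)⁻¹ * g * L t = A) :
    Dx L J t * g * Dx L J t = L t * (J * A * J) * (L t)⁻¹ := by
  unfold Dx
  rw [← h1]; group

/-- `eta = T_(g b) T_b⁻¹` commutes with all `D_t eta D_t`, for an inner mapping `g` which fixes all
commutators `s(b, x)` -/
theorem eta_com (h : AL0 G L J e) {b : Q} {th : Perm Q} (thG : th ∈ G) (the : th e = e)
    (hA : ∀ x, th (sc L J b x) = sc L J b x) (t : Q) :
    Commute (Tx L J (th b) * (Tx L J b)⁻¹)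
      (Dx L J t * (Tx L J (th b) * (Tx L J b)⁻¹) * Dx L J t) := by
  have thG' : th⁻¹ ∈ G := G.inv_mem thG
  have the' : th⁻¹ e = e := by rw [Perm.inv_eq_iff_eq, the]
  have hT' : Tx L J (th b) = th * Tx L J b * th⁻¹ := (h.Tx_conj thG the b).symm
  obtain ⟨η, hη⟩ : ∃ η, η = Tx L J (th b) * (Tx L J b)⁻¹ := ⟨_, rfl⟩
  rw [← hη]
  have ηG : η ∈ G := by rw [hη]; exact G.mul_mem (h.Tx_mem _) (G.inv_mem (h.Tx_mem _))
  have TiE : (Tx L J b)⁻¹ e = e := by rw [Perm.inv_eq_iff_eq, h.Tx_e]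
  have ηe : η e = e := by
    rw [hη, Perm.mul_apply, TiE, h.Tx_e]
  have ηfix : ∀ x, η (sc L J b x) = sc L J b x := by
    intro x
    have h1 : (Tx L J b)⁻¹ (sc L J b x) = sc L J b ((Tx L J b)⁻¹ x) := by
      rw [h.sc_conj (G.inv_mem (h.Tx_mem b)) TiE]
      have : (Tx L J b)⁻¹ b = b := by rw [Perm.inv_eq_iff_eq, h.Tx_x]
      rw [this]
    have h2 : th⁻¹ (sc L J b ((Tx L J b)⁻¹ x)) = sc L J b ((Tx L J b)⁻¹ x) := by
      rw [Perm.inv_eq_iff_eq, hA]
    rw [hη, hT']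
    simp only [Perm.mul_apply]
    rw [h1, h2, ← h1, apply_inv', hA]
  have ηL : ∀ x, Commute η (L (sc L J b x)) := fun x => h.comL ηG ηe (ηfix x)
  have ηR : ∀ x, Commute η (Rt L J (sc L J b x)) := fun x => h.comR ηG ηe (ηfix x)
  -- the second commutator
  have hs2 : sc L J (th b) t = sc L J b (th⁻¹ t) := by
    have h1 := h.sc_conj thG the b (th⁻¹ t)
    rw [apply_inv'] at h1
    rw [← h1, hA]
  have hth2 : th (sc L J (th b) t) = sc L J (th b) t := by rw [hs2, hA]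
  have hth2' : th⁻¹ (sc L J (th b) t) = sc L J (th b) t := by
    rw [Perm.inv_eq_iff_eq, hth2]
  have n1 : Nsp L (sc L J b t) (sc L J (th b) t) := by
    refine h.Nsp_self _ _ ?_ (h.N3 b t)
    have h1 := h.Nsp_inn thG the (h.N4 b t)
    change Nsp L (th (sc L J b t)) (th b) at h1
    rwa [hA] at h1
  have n2 : Nsp L (sc L J (th b) t) (sc L J b t) := by
    refine h.Nsp_self _ _ ?_ (h.N3 (th b) t)
    have h1 := h.Nsp_inn thG' the' (h.N4 (th b) t)
    change Nsp L (th⁻¹ (sc L J (th b) t)) (th⁻¹ (th b)) at h1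
    rwa [hth2', inv_apply'] at h1
  have c12 : Commute (L (sc L J (th b) t)) (Rt L J (sc L J b t)) := h.comm_LR n1 n2
  have c21 : Commute (L (sc L J b t)) (Rt L J (sc L J (th b) t)) := h.comm_LR n2 n1
  have c11 : Commute (L (sc L J b t)) (Rt L J (sc L J b t)) := h.flex _
  have c22 : Commute (L (sc L J (th b) t)) (Rt L J (sc L J (th b) t)) := h.flex _
  have ηL1 := ηL t
  have ηR1 := ηR t
  have ηL2 := ηL (th⁻¹ t)
  have ηR2 := ηR (th⁻¹ t)
  rw [← hs2] at ηL2 ηR2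
  have f1 := h.LTL b t
  have f2 := h.LTL (th b) t
  have r1 := h.R_sc_inv b t
  have r2 := h.R_sc_inv (th b) t
  generalize sc L J b t = s1 at *
  generalize sc L J (th b) t = s2 at *
  have hAη : (L t)⁻¹ * η * L t = η * L s2 * (L s1)⁻¹ := by
    calc (L t)⁻¹ * η * L t = ((L t)⁻¹ * Tx L J (th b) * L t) * ((L t)⁻¹ * Tx L J b * L t)⁻¹ := by
          rw [hη]; group
      _ = L s2 * η * (L s1)⁻¹ := by rw [f1, f2, hη]; group
      _ = _ := by rw [← ηL2.eq]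
  have hD := h.DgD t hAη
  have hJη : J * (η * L s2 * (L s1)⁻¹) * J = η * (Rt L J s2)⁻¹ * Rt L J s1 := by
    have h1 := h.comJ η ηG ηe
    have h2 : J * (L s1)⁻¹ * J = Rt L J s1 := by
      have h3 : (J * L s1 * J)⁻¹ = J * (L s1)⁻¹ * J := by
        rw [mul_inv_rev, mul_inv_rev, h.Jinv]; group
      rw [← h3, r1, inv_inv]
    calc J * (η * L s2 * (L s1)⁻¹) * J = (J * η) * 1 * L s2 * 1 * (L s1)⁻¹ * J := by group
      _ = (η * J) * 1 * L s2 * (J * J) * (L s1)⁻¹ * J := by rw [h1, h.JJ1]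
      _ = η * (J * L s2 * J) * (J * (L s1)⁻¹ * J) := by group
      _ = _ := by rw [r2, h2]
  rw [hJη] at hD
  rw [hD]
  have hcc : Commute (η * L s2 * (L s1)⁻¹) (η * (Rt L J s2)⁻¹ * Rt L J s1) := by
    have k1 : Commute η (η * (Rt L J s2)⁻¹ * Rt L J s1) :=
      ((Commute.refl η).mul_right ηR2.inv_right).mul_right ηR1
    have k2 : Commute (L s2) (η * (Rt L J s2)⁻¹ * Rt L J s1) :=
      (ηL2.symm.mul_right c22.inv_right).mul_right c12
    have k3 : Commute (L s1) (η * (Rt L J s2)⁻¹ * Rt L J s1) :=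
      (ηL1.symm.mul_right c21.inv_right).mul_right c11
    exact (k1.mul_left k2).mul_left k3.inv_left
  have hη2 : η = L t * (η * L s2 * (L s1)⁻¹) * (L t)⁻¹ := by
    rw [← hAη]; group
  have hcc' := hcc.eq
  generalize η * L s2 * (L s1)⁻¹ = A at *
  generalize η * (Rt L J s2)⁻¹ * Rt L J s1 = B at *
  rw [hη2]
  change L t * A * (L t)⁻¹ * (L t * B * (L t)⁻¹) = L t * B * (L t)⁻¹ * (L t * A * (L t)⁻¹)
  calc L t * A * (L t)⁻¹ * (L t * B * (L t)⁻¹) = L t * (A * B) * (L t)⁻¹ := by group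
    _ = L t * (B * A) * (L t)⁻¹ := by rw [hcc']
    _ = _ := by group

end AL0

end ALoop
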