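import Pool.Agent.H20.O1.Eta
import Pool.Agent.H38.O2.Main

set_option autoImplicit false

/-!
In a finite simple nonassociative automorphic loop of odd order `th(a, b)` fixes `b`
(helpers 83, 93, 77, 79).
-/

namespace ALoop

open Equiv

variable {Q : Type*} {G : Subgroup (Perm Q)} {L : Q → Perm Q} {J : Perm Q} {e : Q}

/-- the trick -/
theorem trick {M : Type*} [Group M] {u v u' v' : M} (h1 : Commute u v) (h2 : Commute u' v')
    (h3 : Commute u u') (h4 : Commute v v') (h5 : Commute (u * v) (u' * v')) :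
    Commute (u * v⁻¹) (u' * v'⁻¹) := by
  obtain ⟨c, hc⟩ : ∃ c, c = u'⁻¹ * v * u' * v⁻¹ := ⟨_, rfl⟩
  have hc' : c = u⁻¹ * v' * u * v'⁻¹ := by
    have e1 : u⁻¹ * u'⁻¹ * (u * v * (u' * v')) * v'⁻¹ * v⁻¹ = c := by
      have e2 : u⁻¹ * u'⁻¹ * u = u'⁻¹ := by
        rw [mul_assoc, ← h3.inv_right.eq]; group
      calc u⁻¹ * u'⁻¹ * (u * v * (u' * v')) * v'⁻¹ * v⁻¹ =
          (u⁻¹ * u'⁻¹ * u) * v * u' * v⁻¹ := by group
        _ = _ := by rw [e2, hc]
    have e3 : u⁻¹ * u'⁻¹ * (u' * v' * (u * v)) * v'⁻¹ * v⁻¹ = u⁻¹ * v' * u * v'⁻¹ := by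
      have e4 : v * v'⁻¹ * v⁻¹ = v'⁻¹ := by
        rw [h4.inv_right.eq]; group
      calc u⁻¹ * u'⁻¹ * (u' * v' * (u * v)) * v'⁻¹ * v⁻¹ =
          u⁻¹ * v' * u * (v * v'⁻¹ * v⁻¹) := by group
        _ = _ := by rw [e4]
    rw [← e1, ← e3, h5.eq]
  -- `c` commutes with everything
  have cu : Commute c u := by
    rw [hc]
    exact (((h3.symm.inv_left.mul_left h1.symm).mul_left h3.symm).mul_left h1.symm.inv_left)
  have cv' : Commute c v' := by
    rw [hc]
    exact (((h2.inv_left.mul_left h4).mul_left h2).mul_left h4.inv_left)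
  have cv : Commute c v := by
    rw [hc']
    exact (((h1.inv_left.mul_left h4.symm).mul_left h1).mul_left h4.symm.inv_left)
  have cu' : Commute c u' := by
    rw [hc']
    exact (((h3.inv_left.mul_left h2.symm).mul_left h3).mul_left h2.symm.inv_left)
  have f1 : v * u' = c * u' * v := by
    rw [cu'.eq, hc]; group
  have f2 : v' * u = c * u * v' := by
    rw [cu.eq, hc']; group
  have f3 : v⁻¹ * u' = c⁻¹ * u' * v⁻¹ := by
    have : u' * v⁻¹ = v⁻¹ * c * u' := by
      calc u' * v⁻¹ = v⁻¹ * (v * u') * v⁻¹ := by group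
        _ = _ := by rw [f1]; group
    calc v⁻¹ * u' = c⁻¹ * (c * v⁻¹) * u' := by group
      _ = c⁻¹ * (v⁻¹ * c) * u' := by rw [cv.inv_right.eq]
      _ = c⁻¹ * (u' * v⁻¹) := by rw [this]; group
      _ = _ := by group
  have f4 : v'⁻¹ * u = c⁻¹ * u * v'⁻¹ := by
    have : u * v'⁻¹ = v'⁻¹ * c * u := by
      calc u * v'⁻¹ = v'⁻¹ * (v' * u) * v'⁻¹ := by group
        _ = _ := by rw [f2]; group
    calc v'⁻¹ * u = c⁻¹ * (c * v'⁻¹) * u := by group
      _ = c⁻¹ * (v'⁻¹ * c) * u := by rw [cv'.inv_right.eq]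
      _ = c⁻¹ * (u * v'⁻¹) := by rw [this]; group
      _ = _ := by group
  change u * v⁻¹ * (u' * v'⁻¹) = u' * v'⁻¹ * (u * v⁻¹)
  have g1 : u * v⁻¹ * (u' * v'⁻¹) = c⁻¹ * (u * u') * (v⁻¹ * v'⁻¹) := by
    calc u * v⁻¹ * (u' * v'⁻¹) = u * (v⁻¹ * u') * v'⁻¹ := by group
      _ = (u * c⁻¹) * u' * v⁻¹ * v'⁻¹ := by rw [f3]; group
      _ = (c⁻¹ * u) * u' * v⁻¹ * v'⁻¹ := by rw [cu.inv_left.eq]
      _ = _ := by group
  have g2 : u' * v'⁻¹ * (u * v⁻¹) = c⁻¹ * (u' * u) * (v'⁻¹ * v⁻¹) := by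
    calc u' * v'⁻¹ * (u * v⁻¹) = u' * (v'⁻¹ * u) * v⁻¹ := by group
      _ = (u' * c⁻¹) * u * v'⁻¹ * v⁻¹ := by rw [f4]; group
      _ = (c⁻¹ * u') * u * v'⁻¹ * v⁻¹ := by rw [cu'.inv_left.eq]
      _ = _ := by group
  rw [g1, g2, h3.eq, h4.inv_inv.eq]

namespace AL0

/-- the conjugate of `R_b` by `L_a` -/
theorem conjR (_h : AL0 G L J e) (a b : Q) :
    (L a)⁻¹ * Rt L J b * L a = Rt L J b * (Th L J a b)⁻¹ := by
  unfold Th; group

/-- the conjugate of `R_(b⁻¹)` by `L_a` -/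
theorem conjRJ (h : AL0 G L J e) (a b : Q) :
    (L a)⁻¹ * Rt L J (J b) * L a =
      Rt L J (J b) * ((Tx L J b)⁻¹ * Th L J a b * Tx L J b) := by
  rw [h.conjR a (J b)]
  have h1 := h.K1 a b
  have h2 : (Th L J a (J b))⁻¹ = (Tx L J b)⁻¹ * Th L J a b * Tx L J b := by
    rw [mul_assoc, ← h1]; group
  rw [h2]

/-- `X = L_b⁻¹ t L_b`, `Y = J X J`: `X Y = Y X = T⁻¹ t T t`; `X` commutes with `t`; `X⁻¹ e = J (X e)` -/
theorem t_comm_X (h : AL0 G L J e) (a b : Q) :
    ((L b)⁻¹ * Th L J a b * L b) * (J * ((L b)⁻¹ * Th L J a b * L b) * J) =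
      (Tx L J b)⁻¹ * Th L J a b * Tx L J b * Th L J a b ∧
    (J * ((L b)⁻¹ * Th L J a b * L b) * J) * ((L b)⁻¹ * Th L J a b * L b) =
      (Tx L J b)⁻¹ * Th L J a b * Tx L J b * Th L J a b ∧
    Th L J a b * ((L b)⁻¹ * Th L J a b * L b) = ((L b)⁻¹ * Th L J a b * L b) * Th L J a b := by
  have tG := h.Th_mem a b
  have te := h.Th_e a b
  have hc1 := h.conjR a b
  have hc2 := h.conjRJ a b
  have tJ := h.Th_J a b
  obtain ⟨t, ht⟩ : ∃ t, t = Th L J a b := ⟨_, rfl⟩
  rw [← ht] at tG te hc1 hc2 tJ ⊢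
  have hRR := h.RRJ b
  have TJ := h.Tx_J b
  have TL := h.Tx_L b
  have TR := h.Tx_R b
  have hJLJ := h.JLJ b
  have hLeq := h.L_eq b
  have hJJ := h.JJ1
  obtain ⟨X, hX⟩ : ∃ X, X = (L b)⁻¹ * t * L b := ⟨_, rfl⟩
  rw [← hX]
  have JXJ : J * X * J = (Rt L J (J b))⁻¹ * t * Rt L J (J b) := by
    rw [← hJLJ, hX]
    have e1 : (J * L b * J)⁻¹ = J * (L b)⁻¹ * J := by
      rw [mul_inv_rev, mul_inv_rev, h.Jinv]; group
    rw [e1]
    calc J * ((L b)⁻¹ * t * L b) * J = J * (L b)⁻¹ * 1 * t * L b * J := by group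
      _ = J * (L b)⁻¹ * (J * J) * t * L b * J := by rw [hJJ]
      _ = J * (L b)⁻¹ * J * (J * t) * L b * J := by group
      _ = J * (L b)⁻¹ * J * (t * J) * L b * J := by rw [tJ]
      _ = _ := by group
  obtain ⟨Y, hY⟩ : ∃ Y, Y = J * X * J := ⟨_, rfl⟩
  rw [← hY] at JXJ ⊢
  obtain ⟨T, hT⟩ : ∃ T, T = Tx L J b := ⟨_, rfl⟩
  rw [← hT] at TJ TL TR hLeq hc2 ⊢
  obtain ⟨R, hR⟩ : ∃ R, R = Rt L J b := ⟨_, rfl⟩
  rw [← hR] at TR hLeq hc1 hRR
  obtain ⟨R', hR'⟩ : ∃ R', R' = Rt L J (J b) := ⟨_, rfl⟩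
  rw [← hR'] at hc2 hRR JXJ
  -- the product of the two conjugates
  have p1 : (L a)⁻¹ * (R * R') * L a = (R * R') * (Y⁻¹ * (T⁻¹ * t * T)) := by
    calc (L a)⁻¹ * (R * R') * L a = ((L a)⁻¹ * R * L a) * ((L a)⁻¹ * R' * L a) := by group
      _ = _ := by rw [hc1, hc2, JXJ]; group
  have p2 : (L a)⁻¹ * (R' * R) * L a = (R' * R) * (X * t⁻¹) := by
    calc (L a)⁻¹ * (R' * R) * L a = ((L a)⁻¹ * R' * L a) * ((L a)⁻¹ * R * L a) := by group
      _ = _ := by rw [hc1, hc2, hX, hLeq]; group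
  have p3 : Y⁻¹ * (T⁻¹ * t * T) = X * t⁻¹ := by
    have e1 : (R * R') * (Y⁻¹ * (T⁻¹ * t * T)) = (R * R') * (X * t⁻¹) := by
      rw [← p1, hRR, p2]
    exact mul_left_cancel e1
  have hYX : Y * X = T⁻¹ * t * T * t := by
    calc Y * X = Y * (X * t⁻¹) * t := by group
      _ = _ := by rw [← p3]; group
  have hJW : J * (T⁻¹ * t * T * t) * J = T⁻¹ * t * T * t := by
    have e1 : J * T⁻¹ = T⁻¹ * J := by
      rw [eq_inv_mul_iff_mul_eq, ← mul_assoc, TJ]; group
    calc J * (T⁻¹ * t * T * t) * J = (J * T⁻¹) * t * T * t * J := by group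
      _ = T⁻¹ * (J * t) * T * t * J := by rw [e1]; group
      _ = T⁻¹ * t * (J * T) * t * J := by rw [← tJ]; group
      _ = T⁻¹ * t * T * (J * t) * J := by rw [← TJ]; group
      _ = T⁻¹ * t * T * t * (J * J) := by rw [← tJ]; group
      _ = _ := by rw [hJJ]; group
  have hXY : X * Y = T⁻¹ * t * T * t := by
    rw [← hJW, ← hYX, hY]
    calc X * (J * X * J) = 1 * X * J * X * J := by group
      _ = (J * J) * X * J * X * J := by rw [hJJ]
      _ = _ := by group
  refine ⟨hXY, hYX, ?_⟩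
  -- `l = X t⁻¹`
  obtain ⟨l, hl⟩ : ∃ l, l = X * t⁻¹ := ⟨_, rfl⟩
  have XG : X ∈ G := by
    rw [hX]; exact G.mul_mem (G.mul_mem (G.inv_mem (h.memL _)) tG) (h.memL _)
  have tiG : t⁻¹ ∈ G := G.inv_mem tG
  have tie : t⁻¹ e = e := by rw [Perm.inv_eq_iff_eq, te]
  have lG : l ∈ G := by rw [hl]; exact G.mul_mem XG tiG
  have l1 : l = (L b)⁻¹ * L (t b) := by
    rw [hl, hX, ← h.equi t tG te b]; group
  obtain ⟨u, hu⟩ : ∃ u, u = (L b)⁻¹ (t b) := ⟨_, rfl⟩
  have hbu : L b u = t b := by rw [hu, apply_inv']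
  have le : l e = u := by
    rw [l1, Perm.mul_apply, h.Le, hu]
  obtain ⟨k, hk⟩ : ∃ k, k = (L (L b u))⁻¹ * L b * L u := ⟨_, rfl⟩
  have kG : k ∈ G := by
    rw [hk]; exact G.mul_mem (G.mul_mem (G.inv_mem (h.memL _)) (h.memL _)) (h.memL _)
  have ke : k e = e := by
    rw [hk]
    simp only [Perm.mul_apply]
    rw [h.Le, Perm.inv_eq_iff_eq, h.Le]
  have kb : k b = b := by
    rw [hk]
    simp only [Perm.mul_apply]
    rw [h.flex', Perm.inv_eq_iff_eq]
  have lk : l * k = L u := by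
    rw [hk, hbu, l1]; group
  -- `mu`
  obtain ⟨m, hm⟩ : ∃ m, m = R * R' := ⟨_, rfl⟩
  have mG : m ∈ G := by rw [hm, hR, hR']; exact G.mul_mem (h.memR _) (h.memR _)
  have me : m e = e := by
    rw [hm, hR, hR', Perm.mul_apply, h.Rt_e, h.Rt_app, h.JL]
  obtain ⟨a', ha'⟩ : ∃ a', a' = m⁻¹ a := ⟨_, rfl⟩
  have l2 : l = (L a')⁻¹ * L a := by
    have mie : m⁻¹ e = e := by rw [Perm.inv_eq_iff_eq, me]
    have e1 := h.equi m⁻¹ (G.inv_mem mG) mie a
    rw [← ha', inv_inv] at e1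
    have e2 : (L a)⁻¹ * m * L a = m * l := by
      rw [hm, p1, p3, hl]
    calc l = m⁻¹ * ((L a)⁻¹ * m * L a) := by rw [e2]; group
      _ = (m⁻¹ * L a * m)⁻¹ * L a := by group
      _ = _ := by rw [e1]
  have hau : L a' u = a := by
    rw [← le, l2, Perm.mul_apply, h.Le, apply_inv']
  have ka' : k a' = a' := by
    have e1 : k = (L a)⁻¹ * L a' * L u := by
      have : k = l⁻¹ * L u := by rw [← lk]; group
      rw [this, l2]; group
    rw [e1]
    simp only [Perm.mul_apply]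
    rw [h.flex', hau, Perm.inv_eq_iff_eq]
  have kR : k * R = R * k := by rw [hR]; exact h.comR kG ke kb
  have kR' : k * R' = R' * k := by rw [hR']; exact h.comR kG ke (h.fixJ kG ke kb)
  have km : k * m = m * k := by
    rw [hm]
    calc k * (R * R') = (k * R) * R' := by group
      _ = R * (k * R') := by rw [kR]; group
      _ = _ := by rw [kR']; group
  have ka : k a = a := by
    have e1 : a = m a' := by rw [ha', apply_inv']
    have e2 := congrArg (fun p : Perm Q => p a') km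
    simp only [Perm.mul_apply] at e2
    rw [ka', ← e1] at e2
    exact e2
  have kL : k * L a = L a * k := h.comL kG ke ka
  have kt : k * t = t * k := by
    have e1 : t = (L a)⁻¹ * R⁻¹ * L a * R := by rw [ht, hR]; rfl
    have e2 : Commute k (L a) := kL
    have e3 : Commute k R := kR
    rw [e1]
    exact (((e2.inv_right.mul_right e3.inv_right).mul_right e2).mul_right e3).eq
  have ktb : k (t b) = t b := by
    have e2 := congrArg (fun p : Perm Q => p b) kt
    simp only [Perm.mul_apply] at e2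
    rw [kb] at e2
    exact e2
  have ku : k u = u := by
    have e1 := h.aut kG ke b u
    rw [hbu, ktb, kb, ← hbu] at e1
    exact ((L b).injective e1).symm
  have kLu : k * L u = L u * k := h.comL kG ke ku
  -- `t` fixes `u`
  have hX2 : X = L u * k⁻¹ * t := by
    calc X = l * t := by rw [hl]; group
      _ = (l * k) * k⁻¹ * t := by group
      _ = _ := by rw [lk]
  have kJ : k * J = J * k := h.comJ k kG ke
  have hY2 : Y = Rt L J (J u) * k⁻¹ * t := by
    have e1 : k⁻¹ * J = J * k⁻¹ := by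
      rw [inv_mul_eq_iff_eq_mul, ← mul_assoc, kJ]; group
    rw [hY, hX2, ← h.JLJ u]
    calc J * (L u * k⁻¹ * t) * J = J * L u * k⁻¹ * (t * J) := by group
      _ = J * L u * (k⁻¹ * J) * t := by rw [tJ]; group
      _ = _ := by rw [e1]; group
  have ktu : k⁻¹ (t u) = t u := by
    rw [Perm.inv_eq_iff_eq]
    have e2 := congrArg (fun p : Perm Q => p u) kt
    simp only [Perm.mul_apply] at e2
    rw [ku] at e2
    exact e2.symm
  have kie : k⁻¹ e = e := by rw [Perm.inv_eq_iff_eq, ke]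
  have hWe : (Y * X) e = e := by
    rw [hYX]
    simp only [Perm.mul_apply]
    rw [te, hT, h.Tx_e, te, Perm.inv_eq_iff_eq, h.Tx_e]
  have htu : t u = u := by
    rw [hY2, hX2] at hWe
    simp only [Perm.mul_apply] at hWe
    rw [te, kie, h.Le, ktu, h.Rt_app] at hWe
    have e1 := h.LJ (t u)
    rw [← hWe] at e1
    have e2 := (L (t u)).injective e1
    have e3 := congrArg J e2
    rw [h.JJ, h.JJ] at e3
    exact e3
  have tLu : t * L u = L u * t := h.comL tG te htu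
  have c1 : Commute t (L u) := tLu
  have c2 : Commute t k := kt.symm
  rw [hX2]
  exact ((c1.mul_right c2.inv_right).mul_right (Commute.refl t)).eq

end AL0

namespace AL

theorem D_DD (h : AL G L J e) (p q : Q) :
    D L J (D L J p q) = D L J p * D L J q * D L J p := by
  have h1 := h.D_mul_mem p e
  rw [h.D_e] at h1
  have h2 := h.D_conj h1 (J q)
  have h3 : (D L J p * J) (J q) = D L J p q := by rw [Perm.mul_apply, h.JJ]
  rw [h3, ← h.D_J] at h2
  rw [← h2]
  have h4 : (D L J p)⁻¹ = D L J p := inv_eq_of_mul_eq_one_left (h.D_sq p)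
  rw [mul_inv_rev, h.Jinv, h4]
  have hJJ := h.JJ1
  calc D L J p * J * (J * D L J q * J) * (J * D L J p) =
        D L J p * (J * J) * D L J q * (J * J) * D L J p := by group
    _ = _ := by rw [hJJ]; group

/-- (K7) `th(a, b)` fixes `b` -/
theorem K7 [Finite Q] (h : AL G L J e) (hna : ¬ Assoc L) (hfix : ∀ x, J x = x → x = e) (a b : Q) :
    Th L J a b b = b := by
  have h0 := h.al0
  obtain ⟨hXY, hYX, htX⟩ := h0.t_comm_X a b
  have tG := h0.Th_mem a b
  have te := h0.Th_e a b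
  have tJ := h0.Th_J a b
  have hsc : ∀ x, Th L J a b (sc L J b x) = sc L J b x := h0.Th_sc a b
  obtain ⟨t, ht⟩ : ∃ t, t = Th L J a b := ⟨_, rfl⟩
  rw [← ht] at hXY hYX htX tG te tJ hsc ⊢
  have hJJ := h.JJ1
  obtain ⟨X, hX⟩ : ∃ X, X = (L b)⁻¹ * t * L b := ⟨_, rfl⟩
  rw [← hX] at hXY hYX htX
  obtain ⟨Y, hY⟩ : ∃ Y, Y = J * X * J := ⟨_, rfl⟩
  rw [← hY] at hXY hYX
  have XG : X ∈ G := by
    rw [hX]; exact G.mul_mem (G.mul_mem (G.inv_mem (h.memL _)) tG) (h.memL _)
  have YG : Y ∈ G := by rw [hY]; exact h.JG X XG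
  have cXY : Commute X Y := by
    change X * Y = Y * X
    rw [hXY, hYX]
  have ctX : Commute t X := htX
  have ctY : Commute t Y := by
    change t * Y = Y * t
    rw [hY]
    calc t * (J * X * J) = (t * J) * X * J := by group
      _ = J * (t * X) * J := by rw [tJ]; group
      _ = J * X * (t * J) := by rw [htX]; group
      _ = _ := by rw [tJ]; group
  obtain ⟨l, hl⟩ : ∃ l, l = X * t⁻¹ := ⟨_, rfl⟩
  obtain ⟨r, hr⟩ : ∃ r, r = Y * t⁻¹ := ⟨_, rfl⟩
  have hJlJ : J * l * J = r := by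
    have e1 : t⁻¹ * J = J * t⁻¹ := by
      rw [inv_mul_eq_iff_eq_mul, ← mul_assoc, tJ]; group
    rw [hl, hr, hY]
    calc J * (X * t⁻¹) * J = J * X * (t⁻¹ * J) := by group
      _ = _ := by rw [e1]; group
  have hJrJ : J * r * J = l := by
    rw [← hJlJ]
    calc J * (J * l * J) * J = (J * J) * l * (J * J) := by group
      _ = _ := by rw [hJJ]; group
  have clr : Commute l r := by
    rw [hl, hr]
    have k1 : Commute X (Y * t⁻¹) := cXY.mul_right ctX.symm.inv_right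
    have k2 : Commute t⁻¹ (Y * t⁻¹) := (ctY.mul_right (Commute.refl t).inv_right).inv_left
    exact k1.mul_left k2
  have lG : l ∈ G := by rw [hl]; exact G.mul_mem XG (G.inv_mem tG)
  have rG : r ∈ G := by rw [hr]; exact G.mul_mem YG (G.inv_mem tG)
  have l1 : l = (L b)⁻¹ * L (t b) := by
    rw [hl, hX, ← h.equi t tG te b]; group
  obtain ⟨u, hu⟩ : ∃ u, u = (L b)⁻¹ (t b) := ⟨_, rfl⟩
  have hbu : L b u = t b := by rw [hu, apply_inv']
  have le : l e = u := by rw [l1, Perm.mul_apply, h.Le, hu]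
  have tie : t⁻¹ e = e := by rw [Perm.inv_eq_iff_eq, te]
  -- K3
  have Xe : X e = u := by
    have e1 : X = l * t := by rw [hl]; group
    rw [e1, Perm.mul_apply, te, le]
  have Xie : X⁻¹ e = J u := by
    have e1 : (Y * X) e = e := by
      rw [hYX]
      simp only [Perm.mul_apply]
      rw [te, h0.Tx_e, te, Perm.inv_eq_iff_eq, h0.Tx_e]
    rw [Perm.mul_apply, Xe, hY] at e1
    simp only [Perm.mul_apply] at e1
    have e2 := congrArg J e1
    rw [h.JJ, h.Je] at e2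
    rw [Perm.inv_eq_iff_eq, e2]
  have K3 : D L J b (t⁻¹ b) = t b := by
    have e1 : (L b)⁻¹ (t⁻¹ b) = J u := by
      rw [← Xie, hX]
      have : ((L b)⁻¹ * t * L b)⁻¹ = (L b)⁻¹ * t⁻¹ * L b := by group
      rw [this]
      simp only [Perm.mul_apply]
      rw [h.Le]
    unfold D
    simp only [Perm.mul_apply]
    rw [e1, h.JJ, hbu]
  -- the line
  have hline : ∀ q, D L J q (l⁻¹ q) = l q := by
    intro q
    have gG : (L b)⁻¹ * Rt L J q ∈ G := G.mul_mem (G.inv_mem (h.memL _)) (h0.memR _)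
    have g1 : ((L b)⁻¹ * Rt L J q) (t b) = l q := by
      rw [Perm.mul_apply, h0.Rt_app, l1, Perm.mul_apply]
    have g0 : ((L b)⁻¹ * Rt L J q) b = q := by
      rw [Perm.mul_apply, h0.Rt_app, inv_apply']
    have g2 : ((L b)⁻¹ * Rt L J q) (t⁻¹ b) = l⁻¹ q := by
      rw [Perm.mul_apply, h0.Rt_app, ← h.equi t⁻¹ (G.inv_mem tG) tie b, inv_inv]
      have e1 : l⁻¹ = X⁻¹ * t := by
        rw [hl, mul_inv_rev, inv_inv]
        exact ctX.inv_right.eq
      have e2 : X⁻¹ = (L b)⁻¹ * t⁻¹ * L b := by rw [hX]; group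
      rw [e1, e2]
      simp only [Perm.mul_apply]
    have e1 := h.D_conj gG b
    rw [g0] at e1
    rw [← e1]
    simp only [Perm.mul_apply]
    have g2' : l⁻¹ q = (L b)⁻¹ (Rt L J q (t⁻¹ b)) := by rw [← g2, Perm.mul_apply]
    rw [g2', mul_inv_rev]
    simp only [Perm.mul_apply]
    rw [inv_inv, apply_inv', inv_apply', K3, ← g1, Perm.mul_apply]
  have hlD : ∀ q, Commute l (D L J q * l * D L J q) := by
    intro q
    have e1 := h.D_conj lG q
    have e2 := h.D_conj (G.inv_mem lG) q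
    rw [← hline q, h.D_DD, ← e2, inv_inv] at e1
    -- `l D l⁻¹ = D (l⁻¹ D l) D`
    have hD := h.D_sq q
    obtain ⟨d, hd⟩ : ∃ d, d = D L J q := ⟨_, rfl⟩
    rw [← hd] at e1 hD ⊢
    have e3 : Commute l (d * l⁻¹ * d) := by
      change l * (d * l⁻¹ * d) = d * l⁻¹ * d * l
      calc l * (d * l⁻¹ * d) = (l * d * l⁻¹) * d := by group
        _ = d * l⁻¹ * d * l * (d * d) := by rw [e1]; group
        _ = _ := by rw [hD]; group
    have e4 : (d * l⁻¹ * d)⁻¹ = d * l * d := by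
      have e5 : d⁻¹ = d := inv_eq_of_mul_eq_one_left hD
      rw [mul_inv_rev, mul_inv_rev, inv_inv, e5]; group
    have e6 := e3.inv_right
    rwa [e4] at e6
  have hrD : ∀ q, Commute r (D L J q * r * D L J q) := by
    intro q
    have e1 := (hlD (J q)).eq
    rw [← h.D_J] at e1
    have e2 := congrArg (fun g => J * g * J) e1
    change r * (D L J q * r * D L J q) = D L J q * r * D L J q * r
    obtain ⟨d, hd⟩ : ∃ d, d = D L J q := ⟨_, rfl⟩
    rw [← hd] at e1 e2 ⊢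
    have e3 : J * (l * (J * d * J * l * (J * d * J))) * J = r * (d * r * d) := by
      calc J * (l * (J * d * J * l * (J * d * J))) * J =
            (J * l * J) * (d * (J * l * J) * d) * (J * J) := by group
        _ = _ := by rw [hJlJ, hJJ]; group
    have e4 : J * (J * d * J * l * (J * d * J) * l) * J = d * r * d * r := by
      calc J * (J * d * J * l * (J * d * J) * l) * J =
            (J * J) * d * (J * l * J) * d * (J * l * J) := by group
        _ = _ := by rw [hJlJ, hJJ]; group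
    rw [← e3, ← e4, e1]
  -- `l r = T⁻¹ t T t⁻¹`
  have hη : ∀ q, Commute (l * r) (D L J q * (l * r) * D L J q) := by
    intro q
    have TG := h0.Tx_mem b
    have Te := h0.Tx_e b
    have Tie : (Tx L J b)⁻¹ e = e := by rw [Perm.inv_eq_iff_eq, Te]
    have gG : (Tx L J b)⁻¹ * t * Tx L J b ∈ G := G.mul_mem (G.mul_mem (G.inv_mem TG) tG) TG
    have ge : ((Tx L J b)⁻¹ * t * Tx L J b) e = e := by
      simp only [Perm.mul_apply]
      rw [Te, te, Tie]
    have gs : ∀ x, ((Tx L J b)⁻¹ * t * Tx L J b) (sc L J b x) = sc L J b x := by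
      intro x
      simp only [Perm.mul_apply]
      rw [h0.sc_conj TG Te, h0.Tx_x, hsc, Perm.inv_eq_iff_eq, h0.sc_conj TG Te, h0.Tx_x]
    have e1 := h0.eta_com gG ge gs q
    rw [← h0.Tx_conj gG ge b] at e1
    have e2 : ((Tx L J b)⁻¹ * t * Tx L J b) * Tx L J b * ((Tx L J b)⁻¹ * t * Tx L J b)⁻¹ *
        (Tx L J b)⁻¹ = l * r := by
      have e3 : l * r = (X * Y) * t⁻¹ * t⁻¹ := by
        rw [hl, hr]
        calc X * t⁻¹ * (Y * t⁻¹) = X * (t⁻¹ * Y) * t⁻¹ := by group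
          _ = X * (Y * t⁻¹) * t⁻¹ := by rw [ctY.inv_left.eq]
          _ = _ := by group
      rw [e3, hXY]; group
    rw [e2] at e1
    exact e1
  -- the element `l r⁻¹`
  have hP : ∀ q, Commute (l * r⁻¹) (D L J q * (l * r⁻¹) * D L J q) := by
    intro q
    have hD := h.D_sq q
    have e0 := hlD q
    have e1 := hrD q
    have e2 := hη q
    obtain ⟨d, hd⟩ : ∃ d, d = D L J q := ⟨_, rfl⟩
    rw [← hd] at e0 e1 e2 hD ⊢
    have e5 : d⁻¹ = d := inv_eq_of_mul_eq_one_left hD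
    have e3 : d * (l * r) * d = (d * l * d) * (d * r * d) := by
      calc d * (l * r) * d = d * l * 1 * r * d := by group
        _ = d * l * (d * d) * r * d := by rw [hD]
        _ = _ := by group
    have e4 : Commute (d * l * d) (d * r * d) := by
      change d * l * d * (d * r * d) = d * r * d * (d * l * d)
      calc d * l * d * (d * r * d) = d * l * (d * d) * r * d := by group
        _ = d * (l * r) * d := by rw [hD]; group
        _ = d * (r * l) * d := by rw [clr.eq]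
        _ = d * r * 1 * l * d := by group
        _ = d * r * (d * d) * l * d := by rw [hD]
        _ = _ := by group
    rw [e3] at e2
    have e6 := trick clr e4 e0 e1 e2
    have e7 : d * l * d * (d * r * d)⁻¹ = d * (l * r⁻¹) * d := by
      have e8 : (d * r * d)⁻¹ = d * r⁻¹ * d := by
        rw [mul_inv_rev, mul_inv_rev, e5]; group
      rw [e8]
      calc d * l * d * (d * r⁻¹ * d) = d * l * (d * d) * r⁻¹ * d := by group
        _ = _ := by rw [hD]; group
    rwa [e7] at e6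
  have hPD : l * r⁻¹ = D L J u * D L J e := by
    have e1 := h.D_conj lG e
    rw [le] at e1
    rw [← e1, h.D_e, ← hJlJ]
    rw [mul_inv_rev, mul_inv_rev, h.Jinv]; group
  obtain ⟨n, hn, hn1⟩ := h.odd_DD hfix u e
  rw [← hPD] at hn1
  have hinv : D L J e * (l * r⁻¹) * D L J e = (l * r⁻¹)⁻¹ := by
    have e1 : J * r⁻¹ * J = l⁻¹ := by
      have e2 : (J * r * J)⁻¹ = J * r⁻¹ * J := by
        rw [mul_inv_rev, mul_inv_rev, h.Jinv]; group
      rw [← e2, hJrJ]
    rw [h.D_e, mul_inv_rev, inv_inv]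
    calc J * (l * r⁻¹) * J = J * l * 1 * r⁻¹ * J := by group
      _ = (J * l * J) * (J * r⁻¹ * J) := by rw [← hJJ]; group
      _ = _ := by rw [hJlJ, e1]
  have hone := h.close hna (G.mul_mem lG (G.inv_mem rG)) hn hn1 hinv (fun q => (hP q).eq)
  rw [hPD] at hone
  have hue : u = e := by
    apply h.D_inj
    have e1 := h.D_sq e
    calc D L J u = (D L J u * D L J e) * (D L J e)⁻¹ := by group
      _ = (D L J e)⁻¹ := by rw [hone]; group
      _ = D L J e := inv_eq_of_mul_eq_one_left e1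
  rw [← hbu, hue, h.Le]

end AL

end ALoop
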