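import Pool.Agent.H20.O1.K7
import Pool.Agent.H12.EG.End
import Pool.Agent.H28.OddFix

set_option autoImplicit false

/-!
A finite simple automorphic loop of odd order is associative.
-/

namespace ALoop

open Equiv

variable {Q : Type*} {G : Subgroup (Perm Q)} {L : Q → Perm Q} {J : Perm Q} {e : Q}

/-- a simple automorphic loop of odd order is associative -/
theorem AL.odd_assoc [Finite Q] (h : AL G L J e) (hodd : Odd (Nat.card Q)) : Assoc L := by
  by_contra hna
  have hfix : ∀ x, J x = x → x = e := fun x hx => h.al0.fix_of_odd hodd hx
  rcases h.end_game (h.K7 hna hfix) with h1 | h1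
  · exact hna h1
  · apply hna
    apply h.comm_assoc
    intro q
    ext x
    simp only [Perm.mul_apply]
    rw [h.aaip, h.JJ, h1]

end ALoop
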